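import Mathlib

/-!
Maximal independent subfamily and primitive relations (the statement `AlStmt` of project ST of
helper760, spelled out, so that only Mathlib is imported).
-/

set_option autoImplicit false

namespace Pool.Agent.Y919.ST

section al

variable {R K : Type} [CommRing R] [Field K] (φ : R →+* K) {r : ℕ} (q : Fin r → K)

/-- independence over the ring -/
def IndR (I : Finset (Fin r)) : Prop :=
  ∀ A : I → R, ∑ i : I, φ (A i) * q i = 0 → ∀ i, A i = 0

/-- relations -/
def RelR (I : Finset (Fin r)) (j : Fin r) (b : Option I → R) : Prop :=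
  ∑ x : Option I, φ (b x) * q (x.elim j (fun i => (i : Fin r))) = 0

theorem exists_max (hφ : Function.Injective φ) (hq : ∃ i, q i ≠ 0) :
    ∃ I : Finset (Fin r), I.Nonempty ∧ IndR φ q I ∧ ∀ j, j ∉ I → ¬ IndR φ q (insert j I) := by
  classical
  obtain ⟨i0, hi0⟩ := hq
  have h1 : IndR φ q {i0} := by
    intro A hA i
    have hi : i = ⟨i0, Finset.mem_singleton_self i0⟩ :=
      Subtype.ext (Finset.mem_singleton.mp i.2)
    have h2 : ∑ i : ({i0} : Finset (Fin r)), φ (A i) * q i =
        φ (A ⟨i0, Finset.mem_singleton_self i0⟩) * q i0 := by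
      rw [Fintype.sum_eq_single (⟨i0, Finset.mem_singleton_self i0⟩ : ({i0} : Finset (Fin r)))]
      intro x hx
      exact absurd (Subtype.ext (Finset.mem_singleton.mp x.2)) hx
    rw [h2] at hA
    rcases mul_eq_zero.mp hA with h | h
    · rw [hi]; exact (map_eq_zero_iff φ hφ).mp h
    · exact absurd h hi0
  obtain ⟨I, hI, hmax⟩ := Finset.exists_max_image
    ((Finset.univ : Finset (Finset (Fin r))).filter fun I => IndR φ q I) Finset.card
    ⟨{i0}, Finset.mem_filter.mpr ⟨Finset.mem_univ _, h1⟩⟩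
  refine ⟨I, ?_, (Finset.mem_filter.mp hI).2, ?_⟩
  · have := hmax {i0} (Finset.mem_filter.mpr ⟨Finset.mem_univ _, h1⟩)
    rw [Finset.card_singleton] at this
    exact Finset.card_pos.mp (by omega)
  · intro j hj hins
    have := hmax _ (Finset.mem_filter.mpr ⟨Finset.mem_univ _, hins⟩)
    rw [Finset.card_insert_of_notMem hj] at this
    omega

theorem rel_of_none {I : Finset (Fin r)} (hI : IndR φ q I) {j : Fin r} {b : Option I → R}
    (hb : RelR φ q I j b) (h0 : b none = 0) : ∀ x, b x = 0 := by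
  unfold RelR at hb
  rw [Fintype.sum_option, h0, map_zero, zero_mul, zero_add] at hb
  intro x
  cases x with
  | none => exact h0
  | some i => exact hI (fun i => b (some i)) hb i

theorem exists_rel {I : Finset (Fin r)} (hI : IndR φ q I) {j : Fin r} (hj : j ∉ I)
    (h : ¬ IndR φ q (insert j I)) : ∃ b : Option I → R, RelR φ q I j b ∧ b none ≠ 0 := by
  classical
  unfold IndR at h
  push Not at h
  obtain ⟨A, hA, i0, hi0⟩ := h
  let A' : Fin r → R := fun i => if h : i ∈ insert j I then A ⟨i, h⟩ else 0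
  have hA' : ∀ i : ↥(insert j I), A i = A' i := by
    intro i
    change A i = if h : (i : Fin r) ∈ insert j I then A ⟨i, h⟩ else 0
    rw [dif_pos i.2]
  let b : Option I → R := fun x => A' (x.elim j (fun i => (i : Fin r)))
  have hb : RelR φ q I j b := by
    unfold RelR
    rw [Fintype.sum_option]
    have h1 : ∑ i : ↥(insert j I), φ (A i) * q i =
        ∑ i : ↥(insert j I), (fun i : Fin r => φ (A' i) * q i) i :=
      Finset.sum_congr rfl fun i _ => by rw [hA']
    rw [h1, Finset.sum_coe_sort (insert j I) (fun i : Fin r => φ (A' i) * q i),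
      Finset.sum_insert hj, ← Finset.sum_coe_sort I (fun i : Fin r => φ (A' i) * q i)] at hA
    exact hA
  refine ⟨b, hb, fun h0 => ?_⟩
  have h1 := rel_of_none φ q hI hb h0
  apply hi0
  rw [hA']
  rcases Finset.mem_insert.mp i0.2 with h | h
  · have := h1 none
    rw [h]; exact this
  · exact h1 (some ⟨i0, h⟩)

theorem rel_cross {I : Finset (Fin r)} (hI : IndR φ q I) {j : Fin r} {b b' : Option I → R}
    (hb : RelR φ q I j b) (hb' : RelR φ q I j b') (x : Option I) :
    b' none * b x = b none * b' x := by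
  have h1 : RelR φ q I j fun x => b' none * b x - b none * b' x := by
    unfold RelR at *
    have h2 : ∑ x : Option I, φ (b' none * b x - b none * b' x) *
        q (x.elim j (fun i => (i : Fin r))) =
        φ (b' none) * ∑ x : Option I, φ (b x) * q (x.elim j (fun i => (i : Fin r))) -
          φ (b none) * ∑ x : Option I, φ (b' x) * q (x.elim j (fun i => (i : Fin r))) := by
      rw [Finset.mul_sum, Finset.mul_sum, ← Finset.sum_sub_distrib]
      refine Finset.sum_congr rfl fun x _ => ?_
      rw [map_sub, map_mul, map_mul]; ring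
    rw [h2, hb, hb', mul_zero, mul_zero, sub_zero]
  exact sub_eq_zero.mp (rel_of_none φ q hI h1 (by ring) x)

theorem rel_div (hφ : Function.Injective φ) {I : Finset (Fin r)} {j : Fin r} {b : Option I → R}
    {d : R} (hd : d ≠ 0) (hb : RelR φ q I j fun x => d * b x) : RelR φ q I j b := by
  unfold RelR at *
  have h2 : φ d * ∑ x : Option I, φ (b x) * q (x.elim j (fun i => (i : Fin r))) = 0 := by
    rw [Finset.mul_sum, ← hb]
    refine Finset.sum_congr rfl fun x _ => ?_
    rw [map_mul, mul_assoc]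
  exact (mul_eq_zero.mp h2).resolve_left ((map_ne_zero_iff φ hφ).mpr hd)

end al

theorem al0 : ∀ (R K : Type) [CommRing R] [IsDomain R] [UniqueFactorizationMonoid R] [Field K]
    (φ : R →+* K),
    Function.Injective φ → ∀ (r : ℕ) (q : Fin r → K), (∃ i, q i ≠ 0) →
    ∃ I : Finset (Fin r), I.Nonempty ∧
      (∀ A : I → R, ∑ i : I, φ (A i) * q i = 0 → ∀ i, A i = 0) ∧
      ∀ j, j ∉ I → ∃ A : Option I → R, A none ≠ 0 ∧
        ∑ x : Option I, φ (A x) * q (x.elim j (fun i => (i : Fin r))) = 0 ∧
        (∀ b : Option I → R, ∑ x : Option I, φ (b x) * q (x.elim j (fun i => (i : Fin r))) = 0 →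
          ∃ f, ∀ x, b x = f * A x) ∧
        ∀ d, (∀ x, d ∣ A x) → IsUnit d := by
  classical
  intro R K _ _ _ _ φ hφ r q hq
  obtain ⟨I, hne, hI, hmax⟩ := exists_max φ q hφ hq
  refine ⟨I, hne, hI, fun j hj => ?_⟩
  obtain ⟨b0, hb0, hb0'⟩ := exists_rel φ q hI hj (hmax j hj)
  obtain ⟨a, ⟨A, hA, hAa, ha0⟩, hmin⟩ := (wellFounded_dvdNotUnit (α := R)).has_min
    {a : R | ∃ A : Option I → R, RelR φ q I j A ∧ A none = a ∧ a ≠ 0} ⟨b0 none, b0, hb0, rfl, hb0'⟩
  subst hAa
  have hprim : ∀ d, (∀ x, d ∣ A x) → IsUnit d := by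
    intro d hd
    by_contra hu
    choose A' hA' using hd
    have hd0 : d ≠ 0 := by
      rintro rfl
      exact ha0 (by rw [hA' none, zero_mul])
    have h1 : RelR φ q I j A' := by
      apply rel_div φ q hφ hd0
      have : (fun x => d * A' x) = A := funext fun x => (hA' x).symm
      rw [this]; exact hA
    have h2 : A' none ≠ 0 := by
      intro h
      exact ha0 (by rw [hA' none, h, mul_zero])
    exact hmin (A' none) ⟨A', h1, rfl, h2⟩ ⟨h2, d, hu, by rw [hA' none]; ring⟩
  refine ⟨A, ha0, hA, ?_, hprim⟩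
  intro b hb
  obtain ⟨a', b', c', hrel, h1, h2⟩ :=
    UniqueFactorizationMonoid.exists_reduced_factors (A none) ha0 (b none)
  have hc0 : c' ≠ 0 := by
    rintro rfl
    exact ha0 (by rw [← h1, zero_mul])
  have h3 : ∀ x, a' * b x = b' * A x := by
    intro x
    have h4 := rel_cross φ q hI (b := b) (b' := A) hb hA x
    rw [← h1, ← h2, mul_assoc, mul_assoc] at h4
    exact mul_left_cancel₀ hc0 h4
  have h5 : IsUnit a' := hprim a' fun x => hrel.dvd_of_dvd_mul_left ⟨b x, (h3 x).symm⟩
  obtain ⟨u, hu⟩ := h5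
  refine ⟨b' * (u⁻¹ : Rˣ), fun x => ?_⟩
  have h6 := h3 x
  rw [← hu] at h6
  calc b x = (u⁻¹ : Rˣ) * ((u : R) * b x) := by rw [← mul_assoc, Units.inv_mul, one_mul]
    _ = b' * (u⁻¹ : Rˣ) * A x := by rw [h6]; ring

end Pool.Agent.Y919.ST
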