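import Pool.Agent.Y760.ST.Stm
import Pool.Agent.Y919.ST.Al0

/-!
Maximal independent subfamily and primitive relations.
-/

set_option autoImplicit false

namespace Pool.Agent.Y919.ST

theorem al : Pool.Agent.Y760.ST.AlStmt := al0

end Pool.Agent.Y919.ST
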